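import Pool.Agent.LE.StmtsB

/-!
# LYA: the Lyapunov exponent, assembly
-/

set_option autoImplicit false

open MeasureTheory ProbabilityTheory Function

open scoped ENNReal BigOperators

noncomputable section

namespace Pool.Agent.LE.H24B

open Pool.Agent.Anderson Pool.Agent.Loc Pool.Agent.Mob Pool.Agent.Helper54.Bal

variable {d : ℕ}

theorem sm_zero (x : Site d) : sm 0 x = 0 := by
  funext i
  simp [sm]

theorem swp_single (i j : Fin d) :
    swp i j (Pi.single i (1 : ℤ)) = (Pi.single j (1 : ℤ) : Site d) := by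
  funext k
  unfold swp
  by_cases h : k = j
  · rw [h, Equiv.swap_apply_right, Pi.single_eq_same, Pi.single_eq_same]
  · rw [Pi.single_eq_of_ne h, Pi.single_eq_of_ne]
    intro h2
    apply h
    rw [Equiv.swap_apply_eq_iff, Equiv.swap_apply_left] at h2
    exact h2

theorem single_natCast (i : Fin d) (n : ℕ) :
    (Pi.single i (n : ℤ) : Site d) = sm n (Pi.single i (1 : ℤ)) := by
  funext k
  unfold sm
  by_cases h : k = i
  · rw [h, Pi.single_eq_same, Pi.single_eq_same, mul_one]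
  · rw [Pi.single_eq_of_ne h, Pi.single_eq_of_ne h, mul_zero]

theorem add_neg_refl (i : Fin d) (x : Site d) :
    x + -(refl i x) = (Pi.single i (2 * x i) : Site d) := by
  funext k
  unfold refl
  rw [Pi.add_apply, Pi.neg_apply]
  by_cases h : k = i
  · rw [h, Function.update_self, Pi.single_eq_same]
    ring
  · rw [Function.update_of_ne h, Pi.single_eq_of_ne h]
    ring

/-- the upper bound of `μ` by the smallest slope -/
theorem upper (hd : 1 ≤ d) {μ : Site d → ℝ} {γ : ℝ} (h0 : ∀ x, 0 ≤ μ x)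
    (hadd : ∀ x y, μ (x + y) ≤ μ x + μ y) (hneg : ∀ x, μ (-x) = μ x)
    (hsm : ∀ (k : ℕ) (x : Site d), μ (sm k x) = k * μ x)
    (hrefl : ∀ i x, μ (refl i x) = μ x) (hswp : ∀ i j x, μ (swp i j x) = μ x)
    (heps : ∀ ε : ℝ, 0 < ε → ∃ x : Site d, x ≠ 0 ∧ μ x ≤ (γ + ε) * sd 0 x) (x : Site d) :
    μ x ≤ d * γ * sd 0 x := by
  have hne : NeZero d := ⟨by omega⟩
  have hz : μ 0 = 0 := by
    have h1 := hsm 0 (0 : Site d)
    rw [sm_zero] at h1
    rw [h1]
    simp
  have he : ∀ i j : Fin d, μ (Pi.single i (1 : ℤ)) = μ (Pi.single j (1 : ℤ)) := by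
    intro i j
    rw [← swp_single i j, hswp]
  have hsi : ∀ (i : Fin d) (m : ℤ), μ (Pi.single i m) = |(m : ℝ)| * μ (Pi.single i (1 : ℤ)) := by
    intro i m
    obtain ⟨n, hn | hn⟩ := Int.eq_nat_or_neg m
    · rw [hn, single_natCast, hsm]
      simp
    · rw [hn, Pi.single_neg, hneg, single_natCast, hsm]
      simp
  have hlow : ∀ (y : Site d) (i : Fin d), |(y i : ℝ)| * μ (Pi.single i (1 : ℤ)) ≤ μ y := by
    intro y i
    have h1 := hadd y (-(refl i y))
    rw [add_neg_refl, hneg, hrefl, hsi] at h1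
    have h2 : |((2 * y i : ℤ) : ℝ)| = 2 * |(y i : ℝ)| := by
      push_cast
      rw [abs_mul, abs_two]
    rw [h2] at h1
    linarith
  have hγ : ∀ i : Fin d, μ (Pi.single i (1 : ℤ)) ≤ γ := by
    intro i
    refine le_of_forall_pos_le_add fun ε hε => ?_
    obtain ⟨y, hy, hμy⟩ := heps ε hε
    obtain ⟨j, hj⟩ := exists_sd_eq (0 : Site d) y
    have h1 := hlow y j
    have h2 : |(y j : ℝ)| = (sd 0 y : ℝ) := by
      have h3 : (sd (0 : Site d) y : ℤ) = |y j| := by
        rw [hj, Pi.zero_apply, zero_sub, abs_neg]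
      have h4 : ((sd (0 : Site d) y : ℤ) : ℝ) = ((|y j| : ℤ) : ℝ) := by rw [h3]
      rw [Int.cast_abs] at h4
      rw [← h4]
      simp
    have hpos : (0 : ℝ) < sd 0 y := by
      rw [← h2, abs_pos]
      intro h3
      have h4 : y j = 0 := by exact_mod_cast h3
      rw [h4, Pi.zero_apply] at hj
      have h5 : sd (0 : Site d) y = 0 := by
        have : (sd (0 : Site d) y : ℤ) = 0 := by rw [hj]; simp
        exact_mod_cast this
      apply hy
      funext k
      have h6 := (sd_le_iff.1 h5.le) k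
      simp only [Pi.zero_apply, zero_sub, abs_neg, Nat.cast_zero] at h6
      exact abs_nonpos_iff.1 h6
    rw [h2, he j i] at h1
    have h7 : (sd 0 y : ℝ) * μ (Pi.single i (1 : ℤ)) ≤ sd 0 y * (γ + ε) := by
      rw [mul_comm _ (γ + ε)]
      exact h1.trans hμy
    exact le_of_mul_le_mul_left h7 hpos
  have hsum : ∀ s : Finset (Fin d), μ (∑ i ∈ s, (Pi.single i (x i) : Site d)) ≤
      ∑ i ∈ s, |(x i : ℝ)| * μ (Pi.single i (1 : ℤ)) := by
    intro s
    induction s using Finset.induction_on with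
    | empty =>
      rw [Finset.sum_empty, Finset.sum_empty, hz]
    | insert a s ha ih =>
      rw [Finset.sum_insert ha, Finset.sum_insert ha]
      refine (hadd _ _).trans ?_
      rw [hsi]
      linarith
  have h1 := hsum Finset.univ
  rw [Finset.univ_sum_single] at h1
  refine h1.trans ?_
  calc ∑ i, |(x i : ℝ)| * μ (Pi.single i (1 : ℤ)) ≤ ∑ _i : Fin d, (sd 0 x : ℝ) * γ := by
        refine Finset.sum_le_sum fun i _ => ?_
        have h2 : |(x i : ℝ)| ≤ sd 0 x := by
          have h3 := (sd_le_iff.1 (le_refl (sd (0 : Site d) x))) i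
          rw [Pi.zero_apply, zero_sub, abs_neg] at h3
          have h4 : ((|x i| : ℤ) : ℝ) ≤ ((sd (0 : Site d) x : ℤ) : ℝ) := by exact_mod_cast h3
          rw [Int.cast_abs] at h4
          simpa using h4
        exact mul_le_mul h2 (hγ i) (h0 _) (Nat.cast_nonneg _)
    _ = d * γ * sd 0 x := by
        rw [Finset.sum_const, Finset.card_univ, Fintype.card_fin, nsmul_eq_mul]
        ring

/-- LYA -/
theorem lya (bve : BveStmt) (apg : ApgStmt) (lim : LimStmt) (cmg : CmgStmt) (lln : LlnStmt)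
    (mup : MupStmt) (sym : SymStmt) (gam : GamStmt) : LyaStmt := by
  intro d σ hd hσ
  obtain ⟨e, he, he0, hE⟩ := bve d σ hσ
  filter_upwards [hE] with E hEE
  obtain ⟨g, hg, hlim⟩ := hEE
  obtain ⟨C, hC, hap⟩ := apg d σ E hd hσ
  obtain ⟨K, hK⟩ : ∃ K : ℕ, ∀ k, K ≤ k → e k ≤ 1 :=
    Filter.eventually_atTop.1 (he0.eventually_le_const zero_lt_one)
  have hinv : ShiftInv (PP d (gl σ)) := shiftInv_PP (d := d) (gl σ)
  have hap0 : ApG d (PP d (gl σ)) C (fun V x y => ‖g V x y‖) := by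
    refine lim d (PP d (gl σ)) C (fun k V x y => gn V (e (k + K)) E x y) _ hinv hC
      (fun k => hap _ (he _) (hK _ (Nat.le_add_left K k))) ?_ ?_ ?_
    · intro x y
      exact (hg x y).norm
    · intro V x y
      exact norm_nonneg _
    · filter_upwards [hlim] with V hV x y
      exact ((hV x y).comp (Filter.tendsto_add_atTop_nat K)).norm
  have hcmp := cmg d σ E e g hσ he he0 hlim
  obtain ⟨μ, hμ⟩ := lln d (gl σ) C (fun V x y => ‖g V x y‖) hC hap0
  obtain ⟨m0, madd, mneg, msm, -⟩ := mup d (PP d (gl σ)) C _ μ hC hinv hap0 hμ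
  obtain ⟨hr, hs⟩ := sym d σ E e g C μ hσ he hg hlim hap0 hμ
  obtain ⟨γ, hγ, hlow, heps, hfin⟩ := gam d σ E C _ μ hd hσ hC hap0 hcmp hμ
  exact ⟨γ, μ, g, e, hγ, he, he0, hlim, hμ,
    fun x => ⟨hlow x, upper hd m0 madd mneg msm hr hs heps x⟩, hfin⟩

end Pool.Agent.LE.H24B
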